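import Mathlib

set_option autoImplicit false

namespace Pool.Agent.R981.Mazur

/-- A straight line of the plane: the set of points `p` with `a * p.1 + b * p.2 = c`, where `a`
and `b` are not both zero. -/
def IsLine (l : Set (ℝ × ℝ)) : Prop :=
  ∃ a b c : ℝ, (a ≠ 0 ∨ b ≠ 0) ∧ l = {p | a * p.1 + b * p.2 = c}

/-- A Mazurkiewicz set (two-point set): a subset of the plane that meets every straight line in
exactly two points. -/
def IsMazurkiewicz (M : Set (ℝ × ℝ)) : Prop :=
  ∀ l, IsLine l → (M ∩ l).encard = 2

/-- The graph of a function. -/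
def graph (h : ℝ → ℝ) : Set (ℝ × ℝ) := {p | p.2 = h p.1}

/-- A Hamel basis of the plane: a basis of the plane as a vector space over the rationals. -/
def IsHamelBasis (S : Set (ℝ × ℝ)) : Prop :=
  LinearIndependent ℚ (fun p : S => (p : ℝ × ℝ)) ∧ Submodule.span ℚ S = ⊤

/-- A Hamel function: a function whose graph is a Hamel basis of the plane. -/
def IsHamelFunction (h : ℝ → ℝ) : Prop := IsHamelBasis (graph h)

/-- The counterclockwise rotation of the plane by the angle `θ` about the origin. -/
noncomputable def rot (θ : ℝ) (p : ℝ × ℝ) : ℝ × ℝ :=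
  (p.1 * Real.cos θ - p.2 * Real.sin θ, p.1 * Real.sin θ + p.2 * Real.cos θ)

end Pool.Agent.R981.Mazur
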