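import Mathlib

open Cardinal Set

set_option autoImplicit false

namespace Pool.Agent.R981.Transfinite

universe u v

/-- A transfinite construction: tasks `t : T` are fulfilled one after the other, each by adding a
finite set to the set built so far. -/
theorem exists_of_step {X : Type u} {T : Type u} (κ : Cardinal.{u}) (hκ : ℵ₀ < κ)
    (hT : #T ≤ κ) (P : Set X → Prop) (R : T → Set X → Prop) (hP0 : P ∅)
    (hPU : ∀ (ι : Type u) (S : ι → Set X), Nonempty ι → Directed (· ⊆ ·) S → (∀ i, P (S i)) →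
      P (⋃ i, S i))
    (hR : ∀ t S S', R t S → S ⊆ S' → P S' → R t S')
    (hstep : ∀ S, P S → #S < κ → ∀ t, ∃ F : Set X, F.Finite ∧ P (S ∪ F) ∧ R t (S ∪ F)) :
    ∃ S, P S ∧ ∀ t, R t S := by
  classical
  obtain ⟨_, _, hr⟩ := Cardinal.exists_ord_eq_type_lt T
  let r : T → T → Prop := fun s t => s < t
  have hlt : ∀ t : T, #{s // r s t} < κ := fun t =>
    lt_of_lt_of_le (Cardinal.mk_Iio_lt t hr) hT
  have hwf : WellFounded r := wellFounded_lt
  let G : T → Set X := hwf.fix fun t rec =>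
    if h : P (⋃ s : {s // r s t}, rec s.1 s.2) ∧ #(⋃ s : {s // r s t}, rec s.1 s.2 : Set X) < κ then
      (hstep _ h.1 h.2 t).choose
    else ∅
  have hG : ∀ t, G t = if h : P (⋃ s : {s // r s t}, G s.1) ∧
      #(⋃ s : {s // r s t}, G s.1 : Set X) < κ then (hstep _ h.1 h.2 t).choose else ∅ := by
    intro t
    exact hwf.fix_eq _ t
  let U : T → Set X := fun t => ⋃ s : {s // r s t}, G s.1
  have hfin : ∀ t, (G t).Finite := by
    intro t
    rw [hG]
    split_ifs with h
    · exact (hstep _ h.1 h.2 t).choose_spec.1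
    · exact Set.finite_empty
  have hcard : ∀ t, #(U t) < κ := by
    intro t
    refine lt_of_le_of_lt (Cardinal.mk_iUnion_le _) ?_
    have h1 : (⨆ s : {s // r s t}, #(G s.1)) ≤ ℵ₀ :=
      ciSup_le' fun s => (hfin s.1).lt_aleph0.le
    exact Cardinal.mul_lt_of_lt hκ.le (hlt t) (lt_of_le_of_lt h1 hκ)
  have hmono : ∀ s t, r s t → U s ∪ G s ⊆ U t := by
    intro s t hst x hx
    rcases hx with hx | hx
    · obtain ⟨⟨w, hw⟩, hx⟩ := Set.mem_iUnion.1 hx
      exact Set.mem_iUnion.2 ⟨⟨w, lt_trans hw hst⟩, hx⟩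
    · exact Set.mem_iUnion.2 ⟨⟨s, hst⟩, hx⟩
  have hdir : ∀ (Q : T → Prop), Directed (· ⊆ ·) (fun s : {s // Q s} => U s.1 ∪ G s.1) := by
    intro Q s s'
    rcases lt_trichotomy s.1 s'.1 with h | h | h
    · exact ⟨s', (hmono _ _ h).trans subset_union_left, subset_rfl⟩
    · refine ⟨s, subset_rfl, ?_⟩
      change U s'.1 ∪ G s'.1 ⊆ U s.1 ∪ G s.1
      rw [h]
    · exact ⟨s, subset_rfl, (hmono _ _ h).trans subset_union_left⟩
  have hPU' : ∀ t, P (U t) → P (U t ∪ G t) ∧ R t (U t ∪ G t) := by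
    intro t hPt
    have h : P (⋃ s : {s // r s t}, G s.1) ∧ #(⋃ s : {s // r s t}, G s.1 : Set X) < κ :=
      ⟨hPt, hcard t⟩
    have h1 := (hstep _ h.1 h.2 t).choose_spec.2
    have h2 : G t = (hstep _ h.1 h.2 t).choose := by rw [hG, dif_pos h]
    rw [← h2] at h1
    exact h1
  have hPt : ∀ t, P (U t) := by
    intro t
    induction t using hwf.induction with
    | h t ih =>
      by_cases hne : Nonempty {s // r s t}
      · have h1 : U t = ⋃ s : {s // r s t}, (U s.1 ∪ G s.1) := by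
          apply Set.Subset.antisymm
          · intro x hx
            obtain ⟨s, hx⟩ := Set.mem_iUnion.1 hx
            exact Set.mem_iUnion.2 ⟨s, Or.inr hx⟩
          · exact Set.iUnion_subset fun s => hmono _ _ s.2
        rw [h1]
        exact hPU _ _ hne (hdir fun s => r s t) fun s => (hPU' s.1 (ih s.1 s.2)).1
      · rw [not_nonempty_iff] at hne
        have h1 : U t = ∅ := by
          simp only [U]
          exact Set.iUnion_of_empty _
        rw [h1]
        exact hP0
  by_cases hne : Nonempty T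
  · have hne' : Nonempty {s : T // True} := by
      obtain ⟨t⟩ := hne
      exact ⟨⟨t, trivial⟩⟩
    have hP := hPU _ _ hne' (hdir fun _ => True) fun s => (hPU' s.1 (hPt s.1)).1
    refine ⟨_, hP, fun t => ?_⟩
    exact hR t _ _ (hPU' t (hPt t)).2
      (Set.subset_iUnion (fun s : {s : T // True} => U s.1 ∪ G s.1) ⟨t, trivial⟩) hP
  · exact ⟨∅, hP0, fun t => absurd ⟨t⟩ hne⟩

end Pool.Agent.R981.Transfinite
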