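import Mathlib
import Pool.Agent.R981.MazurDefs
import Pool.Agent.R981.Transfinite

open Cardinal Set

set_option autoImplicit false

namespace Pool.Agent.R981.Mazur

/-- The plane. -/
abbrev V := ℝ × ℝ

/-- The cross product. -/
def cross (a b : V) : ℝ := a.1 * b.2 - a.2 * b.1

/-- The orientation determinant of three points. -/
def D (x y z : V) : ℝ := cross (y - x) (z - x)

lemma D_def (x y z : V) : D x y z = (y.1 - x.1) * (z.2 - x.2) - (y.2 - x.2) * (z.1 - x.1) := rfl

/-- The symmetrization of a set. -/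
def sym (H : Set V) : Set V := {x | x ∈ H ∨ -x ∈ H}

lemma neg_mem_sym {H : Set V} {x : V} (hx : x ∈ sym H) : -x ∈ sym H := by
  rcases hx with h | h
  · exact Or.inr (by rwa [neg_neg])
  · exact Or.inl h

lemma sym_mono {H K : Set V} (h : H ⊆ K) : sym H ⊆ sym K := by
  rintro x (hx | hx)
  · exact Or.inl (h hx)
  · exact Or.inr (h hx)

/-- The invariant: linear independence, and no three collinear points in the symmetrization. -/
structure Good (H : Set V) : Prop where
  indep : LinearIndepOn ℚ id H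
  gen : ∀ x ∈ sym H, ∀ y ∈ sym H, ∀ z ∈ sym H, x ≠ y → y ≠ z → x ≠ z → D x y z ≠ 0

lemma Good.zero_notMem {H : Set V} (h : Good H) : (0 : V) ∉ sym H := by
  have h1 : (0 : V) ∉ H := by
    intro h0
    exact h.indep.ne_zero h0 rfl
  rintro (h0 | h0)
  · exact h1 h0
  · rw [neg_zero] at h0
    exact h1 h0

lemma sym_subset_span (H : Set V) : sym H ⊆ Submodule.span ℚ H := by
  rintro x (h | h)
  · exact Submodule.subset_span h
  · have := (Submodule.span ℚ H).neg_mem (Submodule.subset_span h)
    rwa [neg_neg] at this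

/-- Adding one generic point. -/
lemma Good.insert {H : Set V} (h : Good H) (p : V) (hp : p ∉ Submodule.span ℚ H)
    (hl : ∀ x y : V, (x ∈ sym H ∨ x = 0) → (y ∈ sym H ∨ y = 0) → x ≠ y → D x y p ≠ 0) :
    Good (insert p H) := by
  have hpH : p ∉ H := fun hp' => hp (Submodule.subset_span hp')
  refine ⟨(linearIndepOn_id_insert hpH).2 ⟨h.indep, hp⟩, ?_⟩
  have hmem : ∀ x, x ∈ sym (Insert.insert p H) → x ∈ sym H ∨ x = p ∨ x = -p := by
    rintro x (hx | hx)
    · rcases hx with hx | hx
      · exact Or.inr (Or.inl hx)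
      · exact Or.inl (Or.inl hx)
    · rcases hx with hx | hx
      · exact Or.inr (Or.inr (by rw [← hx, neg_neg]))
      · exact Or.inl (Or.inr hx)
  have h0 := h.zero_notMem
  -- two old points and `p`
  have e1 : ∀ x ∈ sym H, ∀ y ∈ sym H, x ≠ y → D x y p ≠ 0 := fun x hx y hy hxy =>
    hl x y (Or.inl hx) (Or.inl hy) hxy
  have e2 : ∀ x ∈ sym H, ∀ y ∈ sym H, x ≠ y → D x y (-p) ≠ 0 := by
    intro x hx y hy hxy hD
    refine e1 (-x) (neg_mem_sym hx) (-y) (neg_mem_sym hy) (fun hh => hxy (neg_injective hh)) ?_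
    rw [D_def] at hD ⊢
    simp only [Prod.fst_neg, Prod.snd_neg] at hD ⊢
    linarith
  have e3 : ∀ x ∈ sym H, D x p (-p) ≠ 0 := by
    intro x hx hD
    refine hl 0 x (Or.inr rfl) (Or.inl hx) (fun hh => h0 (hh ▸ hx)) ?_
    rw [D_def] at hD ⊢
    simp only [Prod.fst_neg, Prod.snd_neg, Prod.fst_zero, Prod.snd_zero] at hD ⊢
    linarith
  have s1 : ∀ x y z : V, D y x z ≠ 0 → D x y z ≠ 0 := by
    intro x y z hh hD
    apply hh
    rw [D_def] at hD ⊢
    linarith
  have s2 : ∀ x y z : V, D y z x ≠ 0 → D x y z ≠ 0 := by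
    intro x y z hh hD
    apply hh
    rw [D_def] at hD ⊢
    linarith
  have e3' : ∀ x ∈ sym H, D x (-p) p ≠ 0 := by
    intro x hx hD
    apply e3 x hx
    rw [D_def] at hD ⊢
    linarith
  intro x hx' y hy' z hz' hxy hyz hxz
  rcases hmem x hx' with hx | hx | hx <;> rcases hmem y hy' with hy | hy | hy <;>
    rcases hmem z hz' with hz | hz | hz
  · exact h.gen x hx y hy z hz hxy hyz hxz
  · rw [hz]; exact e1 x hx y hy hxy
  · rw [hz]; exact e2 x hx y hy hxy
  · rw [hy]; exact s2 _ _ _ (s2 _ _ _ (e1 z hz x hx hxz.symm))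
  · exact absurd (hy.trans hz.symm) hyz
  · rw [hy, hz]; exact e3 x hx
  · rw [hy]; exact s2 _ _ _ (s2 _ _ _ (e2 z hz x hx hxz.symm))
  · rw [hy, hz]; exact e3' x hx
  · exact absurd (hy.trans hz.symm) hyz
  · rw [hx]; exact s2 _ _ _ (e1 y hy z hz hyz)
  · exact absurd (hx.trans hz.symm) hxz
  · rw [hx, hz]; exact s2 _ _ _ (e3' y hy)
  · exact absurd (hx.trans hy.symm) hxy
  · exact absurd (hx.trans hy.symm) hxy
  · exact absurd (hx.trans hy.symm) hxy
  · rw [hx, hy]; exact s2 _ _ _ (s2 _ _ _ (e3 z hz))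
  · exact absurd (hx.trans hz.symm) hxz
  · exact absurd (hy.trans hz.symm) hyz
  · rw [hx]; exact s2 _ _ _ (e2 y hy z hz hyz)
  · rw [hx, hz]; exact s2 _ _ _ (e3 y hy)
  · exact absurd (hx.trans hz.symm) hxz
  · rw [hx, hy]; exact s1 _ _ _ (s2 _ _ _ (s2 _ _ _ (e3 z hz)))
  · exact absurd (hy.trans hz.symm) hyz
  · exact absurd (hx.trans hz.symm) hxz
  · exact absurd (hx.trans hy.symm) hxy
  · exact absurd (hx.trans hy.symm) hxy
  · exact absurd (hx.trans hy.symm) hxy

/-! ### Cardinalities -/

lemma mk_span_lt {S : Set V} (hS : #S < 𝔠) : #(Submodule.span ℚ S) < 𝔠 := by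
  by_cases hne : S.Nonempty
  · have hne' : Nonempty S := hne.to_subtype
    have h1 : #(Submodule.span ℚ S) ≤ #(S →₀ ℚ) := by
      refine Cardinal.mk_le_of_surjective
        (f := fun l : S →₀ ℚ => (⟨Finsupp.linearCombination ℚ (Subtype.val : S → V) l, ?_⟩ :
          Submodule.span ℚ S)) ?_
      · exact (Finsupp.mem_span_iff_linearCombination ℚ S _).2 ⟨l, rfl⟩
      · rintro ⟨x, hx⟩
        obtain ⟨l, hl⟩ := (Finsupp.mem_span_iff_linearCombination ℚ S x).1 hx
        exact ⟨l, Subtype.ext hl⟩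
    refine lt_of_le_of_lt h1 ?_
    rw [Cardinal.mk_finsupp_of_infinite']
    refine max_lt hS ?_
    rw [Cardinal.mkRat]
    exact Cardinal.aleph0_lt_continuum
  · rw [Set.not_nonempty_iff_eq_empty] at hne
    rw [hne, Submodule.span_empty]
    refine lt_of_le_of_lt (b := 1) ?_ ?_
    · rw [Cardinal.le_one_iff_subsingleton]
      infer_instance
    · exact Cardinal.one_lt_aleph0.trans Cardinal.aleph0_lt_continuum

lemma mk_sym_lt {S : Set V} (hS : #S < 𝔠) : #(sym S) < 𝔠 := by
  refine lt_of_le_of_lt (Cardinal.mk_le_mk_of_subset (sym_subset_span S)) ?_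
  exact mk_span_lt hS

lemma mk_insert_lt {S : Set V} (hS : #S < 𝔠) (p : V) : #(insert p S : Set V) < 𝔠 :=
  lt_of_le_of_lt Cardinal.mk_insert_le
    (Cardinal.add_lt_of_lt Cardinal.aleph0_le_continuum hS
      (Cardinal.one_lt_aleph0.trans Cardinal.aleph0_lt_continuum))

/-- A union of fewer than continuum many subsingletons of `ℝ` misses a point. -/
lemma exists_notMem_biUnion {J : Type} (hJ : #J < 𝔠) (B : J → Set ℝ)
    (hB : ∀ j, (B j).Subsingleton) (A : Set ℝ) (hA : #A < 𝔠) : ∃ t, t ∉ A ∧ ∀ j, t ∉ B j := by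
  have h1 : #(⋃ j, B j : Set ℝ) < 𝔠 := by
    refine lt_of_le_of_lt (Cardinal.mk_iUnion_le _) ?_
    refine Cardinal.mul_lt_of_lt Cardinal.aleph0_le_continuum hJ ?_
    refine lt_of_le_of_lt (b := 1) (ciSup_le' fun j => ?_)
      (Cardinal.one_lt_aleph0.trans Cardinal.aleph0_lt_continuum)
    rw [Cardinal.le_one_iff_subsingleton]
    exact (hB j).coe_sort
  have h2 : #(A ∪ ⋃ j, B j : Set ℝ) < 𝔠 :=
    lt_of_le_of_lt (Cardinal.mk_union_le _ _)
      (Cardinal.add_lt_of_lt Cardinal.aleph0_le_continuum hA h1)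
  by_contra hcon
  push Not at hcon
  have h3 : (A ∪ ⋃ j, B j : Set ℝ) = Set.univ := by
    rw [Set.eq_univ_iff_forall]
    intro t
    by_cases ht : t ∈ A
    · exact Or.inl ht
    · obtain ⟨j, hj⟩ := hcon t ht
      exact Or.inr (Set.mem_iUnion.2 ⟨j, hj⟩)
  rw [h3, Cardinal.mk_univ, Cardinal.mk_real] at h2
  exact lt_irrefl _ h2

/-- The span, together with the fact that the symmetrization with `0` lies in it. -/
lemma mem_span_of_sym {H : Set V} {x : V} (hx : x ∈ sym H ∨ x = 0) : x ∈ Submodule.span ℚ H := by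
  rcases hx with hx | rfl
  · exact sym_subset_span H hx
  · exact zero_mem _

/-- A line that meets the symmetrization in at most one point can be met once more. -/
lemma exists_on_line {H : Set V} (h : Good H) (hH : #H < 𝔠) (a b c : ℝ) (hab : a ≠ 0 ∨ b ≠ 0)
    (hl : ∀ x ∈ sym H, ∀ y ∈ sym H, a * x.1 + b * x.2 = c → a * y.1 + b * y.2 = c → x = y) :
    ∃ p : V, a * p.1 + b * p.2 = c ∧ p ∉ sym H ∧ Good (insert p H) := by
  have hpos : a ^ 2 + b ^ 2 ≠ 0 := by
    rcases hab with h1 | h1
    · have := sq_pos_of_ne_zero h1; have := sq_nonneg b; linarith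
    · have := sq_pos_of_ne_zero h1; have := sq_nonneg a; linarith
  let pt : ℝ → V := fun t => (c * a / (a ^ 2 + b ^ 2) - t * b, c * b / (a ^ 2 + b ^ 2) + t * a)
  have hpt : ∀ t, a * (pt t).1 + b * (pt t).2 = c := by
    intro t
    simp only [pt]
    field_simp
    ring
  have hinj : Function.Injective pt := by
    intro s t hst
    have h1 := congrArg Prod.fst hst
    have h2 := congrArg Prod.snd hst
    simp only [pt] at h1 h2
    rcases hab with h3 | h3
    · exact mul_right_cancel₀ h3 (by linarith)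
    · exact mul_right_cancel₀ h3 (by linarith)
  -- lines through two points of the symmetrization or `0`
  have hsub : ∀ x y : V, (x ∈ sym H ∨ x = 0) → (y ∈ sym H ∨ y = 0) → x ≠ y →
      {t | D x y (pt t) = 0}.Subsingleton := by
    intro x y hx hy hxy
    by_cases hpar : a * (y.1 - x.1) + b * (y.2 - x.2) = 0
    · -- parallel: no solutions
      intro t ht
      exfalso
      have ht' : D x y (pt t) = 0 := ht
      rw [D_def] at ht'
      have hx' : a * ((pt t).1 - x.1) + b * ((pt t).2 - x.2) = 0 := by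
        by_cases hu : y.1 - x.1 = 0
        · have hu2 : y.2 - x.2 ≠ 0 := by
            intro hu2
            exact hxy (Prod.ext (by linarith) (by linarith))
          rw [hu] at hpar ht'
          have hb : b = 0 := by
            have : b * (y.2 - x.2) = 0 := by linarith
            exact (mul_eq_zero.1 this).resolve_right hu2
          have hw : (pt t).1 - x.1 = 0 := by
            have : (y.2 - x.2) * ((pt t).1 - x.1) = 0 := by linarith
            exact (mul_eq_zero.1 this).resolve_left hu2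
          rw [hw, hb]
          ring
        · have h1 : (y.1 - x.1) * (a * ((pt t).1 - x.1) + b * ((pt t).2 - x.2)) = 0 := by
            linear_combination ((pt t).1 - x.1) * hpar + b * ht'
          exact (mul_eq_zero.1 h1).resolve_left hu
      have hxc : a * x.1 + b * x.2 = c := by linarith [hpt t]
      have hyc : a * y.1 + b * y.2 = c := by linarith
      have h0 := h.zero_notMem
      rcases hx with hx | hx <;> rcases hy with hy | hy
      · exact hxy (hl x hx y hy hxc hyc)
      · have hc0 : c = 0 := by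
          rw [hy] at hyc
          simpa using hyc.symm
        have h2 := hl x hx (-x) (neg_mem_sym hx) hxc (by
          simp only [Prod.fst_neg, Prod.snd_neg]
          linarith)
        have h3 : x = 0 := self_eq_neg.1 h2
        exact h0 (h3 ▸ hx)
      · have hc0 : c = 0 := by
          rw [hx] at hxc
          simpa using hxc.symm
        have h2 := hl y hy (-y) (neg_mem_sym hy) hyc (by
          simp only [Prod.fst_neg, Prod.snd_neg]
          linarith)
        have h3 : y = 0 := self_eq_neg.1 h2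
        exact h0 (h3 ▸ hy)
      · exact hxy (hx.trans hy.symm)
    · intro s hs t ht
      have hs' : D x y (pt s) = 0 := hs
      have ht' : D x y (pt t) = 0 := ht
      rw [D_def] at hs' ht'
      simp only [pt] at hs' ht'
      have h1 : (a * (y.1 - x.1) + b * (y.2 - x.2)) * (s - t) = 0 := by
        linear_combination hs' - ht'
      have h2 := (mul_eq_zero.1 h1).resolve_left hpar
      linarith
  let S₀ : Set V := {x | x ∈ sym H ∨ x = 0}
  have hS₀ : #S₀ < 𝔠 := by
    refine lt_of_le_of_lt (Cardinal.mk_le_mk_of_subset (t := (Submodule.span ℚ H : Set V)) ?_)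
      (mk_span_lt hH)
    intro x hx
    exact mem_span_of_sym hx
  have hJ : #(S₀ × S₀) < 𝔠 := by
    rw [Cardinal.mk_prod, Cardinal.lift_id]
    exact Cardinal.mul_lt_of_lt Cardinal.aleph0_le_continuum hS₀ hS₀
  have hA : #(pt ⁻¹' (Submodule.span ℚ H : Set V) : Set ℝ) < 𝔠 := by
    refine lt_of_le_of_lt (Cardinal.mk_preimage_of_injective _ _ hinj) ?_
    exact mk_span_lt hH
  obtain ⟨t, ht1, ht2⟩ := exists_notMem_biUnion hJ
    (fun j => {t | (j.1 : V) ≠ j.2 ∧ D j.1 j.2 (pt t) = 0})
    (fun j => by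
      by_cases hj : (j.1 : V) = j.2
      · intro t ht
        exact absurd hj ht.1
      · exact (hsub _ _ j.1.2 j.2.2 hj).anti fun t ht => ht.2) _ hA
  refine ⟨pt t, hpt t, fun hs => ht1 (sym_subset_span H hs), ?_⟩
  refine h.insert (pt t) ht1 fun x y hx hy hxy hD => ?_
  exact ht2 (⟨x, hx⟩, ⟨y, hy⟩) ⟨hxy, hD⟩

/-- A vector can be made to lie in the span by adding two points. -/
lemma exists_span {H : Set V} (h : Good H) (hH : #H < 𝔠) (v : V) (hv : v ∉ Submodule.span ℚ H) :
    ∃ p : V, Good (insert (v - p) (insert p H)) := by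
  set S := Submodule.span ℚ (insert v H) with hS
  have hScard : #S < 𝔠 := mk_span_lt (mk_insert_lt hH v)
  have hHS : Submodule.span ℚ H ≤ S := Submodule.span_mono (Set.subset_insert _ _)
  have hvS : v ∈ S := Submodule.subset_span (Set.mem_insert _ _)
  have hv0 : v ≠ 0 := fun h0 => hv (h0 ▸ zero_mem _)
  -- a vertical line
  obtain ⟨c, hc⟩ : ∃ c : ℝ, ∀ x ∈ S, x.1 ≠ c := by
    have h1 : #(Prod.fst '' (S : Set V)) < 𝔠 := lt_of_le_of_lt Cardinal.mk_image_le hScard
    obtain ⟨c, hc, _⟩ := exists_notMem_biUnion (J := Empty)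
      (by rw [Cardinal.mk_eq_zero]; exact Cardinal.aleph0_pos.trans Cardinal.aleph0_lt_continuum)
      (fun _ => ∅) (fun _ => Set.subsingleton_empty) _ h1
    exact ⟨c, fun x hx hxc => hc ⟨x, hx, hxc⟩⟩
  have hJ : #(S × S) < 𝔠 := by
    rw [Cardinal.mk_prod, Cardinal.lift_id]
    exact Cardinal.mul_lt_of_lt Cardinal.aleph0_le_continuum hScard hScard
  obtain ⟨t, _, ht⟩ := exists_notMem_biUnion hJ
    (fun j => {t | (j.1 : V) ≠ j.2 ∧ D j.1 j.2 (c, t) = 0})
    (fun j => by
      rintro s ⟨hs1, hs2⟩ t ⟨_, ht2⟩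
      rw [D_def] at hs2 ht2
      by_cases hj : (j.2 : V).1 - (j.1 : V).1 = 0
      · exfalso
        have h2 : (j.2 : V).2 - (j.1 : V).2 ≠ 0 := fun h2 =>
          hs1 (Prod.ext (by linarith) (by linarith))
        have h3 : ((j.2 : V).2 - (j.1 : V).2) * (c - (j.1 : V).1) = 0 := by
          rw [hj] at hs2
          simp only at hs2
          linarith
        rcases mul_eq_zero.1 h3 with h4 | h4
        · exact h2 h4
        · exact hc _ j.1.2 (by linarith)
      · have h3 : ((j.2 : V).1 - (j.1 : V).1) * (s - t) = 0 := by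
          simp only at hs2 ht2
          linear_combination hs2 - ht2
        have := (mul_eq_zero.1 h3).resolve_left hj
        linarith) ∅ (by
      rw [Cardinal.mk_eq_zero]
      exact Cardinal.aleph0_pos.trans Cardinal.aleph0_lt_continuum)
  set p : V := (c, t) with hp
  have hD : ∀ x ∈ S, ∀ y ∈ S, x ≠ y → D x y p ≠ 0 := fun x hx y hy hxy h0 =>
    ht (⟨x, hx⟩, ⟨y, hy⟩) ⟨hxy, h0⟩
  have hpS : p ∉ S := fun hpS => hc p hpS rfl
  have hS0 : ∀ x, (x ∈ sym H ∨ x = 0) → x ∈ S := fun x hx => hHS (mem_span_of_sym hx)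
  have hg1 : Good (insert p H) := h.insert p (fun hh => hpS (hHS hh))
    fun x y hx hy hxy => hD x (hS0 x hx) y (hS0 y hy) hxy
  refine ⟨p, hg1.insert (v - p) ?_ ?_⟩
  · intro hmem
    obtain ⟨q, z, hz, hzp⟩ := Submodule.mem_span_insert.1 hmem
    by_cases hq : q = -1
    · rw [hq] at hzp
      apply hv
      have : v = z := by
        have h1 : v - p = -p + z := by rw [hzp]; simp
        have h2 : v = (v - p) + p := by abel
        rw [h2, h1]
        abel
      rw [this]
      exact hz
    · apply hpS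
      have hq' : (1 + q) ≠ 0 := fun h0 => hq (by linarith)
      have h1 : (1 + q) • p = v - z := by
        rw [add_smul, one_smul]
        have h2 : v - z = (v - p) + p - z := by abel
        rw [h2, hzp]
        abel
      have h2 : p = (1 + q)⁻¹ • (v - z) := by
        rw [← h1, smul_smul, inv_mul_cancel₀ hq', one_smul]
      rw [h2]
      exact S.smul_mem _ (S.sub_mem hvS (hHS hz))
  · have hclass : ∀ x, (x ∈ sym (insert p H) ∨ x = 0) → (x ∈ sym H ∨ x = 0) ∨ x = p ∨ x = -p := by
      rintro x ((hx | hx) | hx)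
      · rcases hx with hx | hx
        · exact Or.inr (Or.inl hx)
        · exact Or.inl (Or.inl (Or.inl hx))
      · rcases hx with hx | hx
        · exact Or.inr (Or.inr (by rw [← hx, neg_neg]))
        · exact Or.inl (Or.inl (Or.inr hx))
      · exact Or.inl (Or.inr hx)
    have hhalf : ((1 / 2 : ℚ)) • v ∈ S := S.smul_mem _ hvS
    have hne : ∀ y, (y ∈ sym H ∨ y = 0) → ((1 / 2 : ℚ)) • v ≠ y := by
      intro y hy he
      apply hv
      have h1 : v = (2 : ℚ) • y := by
        rw [← he, smul_smul]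
        norm_num
      rw [h1]
      exact Submodule.smul_mem _ _ (mem_span_of_sym hy)
    have hh1 : (((1 / 2 : ℚ)) • v).1 = v.1 / 2 := by
      rw [Prod.smul_fst, Rat.smul_def]
      push_cast
      ring
    have hh2 : (((1 / 2 : ℚ)) • v).2 = v.2 / 2 := by
      rw [Prod.smul_snd, Rat.smul_def]
      push_cast
      ring
    -- the four cases
    have c1 : ∀ x y, (x ∈ sym H ∨ x = 0) → (y ∈ sym H ∨ y = 0) → x ≠ y → D x y (v - p) ≠ 0 := by
      intro x y hx hy hxy h0
      refine hD (v - x) (S.sub_mem hvS (hS0 x hx)) (v - y) (S.sub_mem hvS (hS0 y hy))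
        (fun hh => hxy (sub_right_injective hh)) ?_
      rw [D_def] at h0 ⊢
      simp only [Prod.fst_sub, Prod.snd_sub] at h0 ⊢
      linarith
    have c2 : ∀ y, (y ∈ sym H ∨ y = 0) → D p y (v - p) ≠ 0 := by
      intro y hy h0
      refine hD _ hhalf y (hS0 y hy) (hne y hy) ?_
      rw [D_def] at h0 ⊢
      rw [hh1, hh2]
      simp only [Prod.fst_sub, Prod.snd_sub] at h0 ⊢
      linarith
    have c3 : ∀ y, (y ∈ sym H ∨ y = 0) → D (-p) y (v - p) ≠ 0 := by
      intro y hy h0
      refine hD (-y) (S.neg_mem (hS0 y hy)) (v - y) (S.sub_mem hvS (hS0 y hy)) ?_ ?_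
      · intro hh
        apply hv0
        have h5 : (0 : V) = v := by
          have h6 := congrArg (fun w => w + y) hh
          simpa using h6
        exact h5.symm
      · rw [D_def] at h0 ⊢
        simp only [Prod.fst_sub, Prod.snd_sub, Prod.fst_neg, Prod.snd_neg] at h0 ⊢
        linarith
    have c4 : D p (-p) (v - p) ≠ 0 := by
      intro h0
      refine hD 0 S.zero_mem v hvS (Ne.symm hv0) ?_
      rw [D_def] at h0 ⊢
      simp only [Prod.fst_sub, Prod.snd_sub, Prod.fst_neg, Prod.snd_neg, Prod.fst_zero,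
        Prod.snd_zero] at h0 ⊢
      linarith
    have sw : ∀ x y z : V, D y x z ≠ 0 → D x y z ≠ 0 := by
      intro x y z hh hD
      apply hh
      rw [D_def] at hD ⊢
      linarith
    intro x y hx' hy' hxy
    rcases hclass x hx' with hx | hx | hx <;> rcases hclass y hy' with hy | hy | hy
    · exact c1 x y hx hy hxy
    · rw [hy]; exact sw _ _ _ (c2 x hx)
    · rw [hy]; exact sw _ _ _ (c3 x hx)
    · rw [hx]; exact c2 y hy
    · exact absurd (hx.trans hy.symm) hxy
    · rw [hx, hy]; exact c4
    · rw [hx]; exact c3 y hy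
    · rw [hx, hy]; exact sw _ _ _ c4
    · exact absurd (hx.trans hy.symm) hxy

/-! ### The whole set -/

lemma good_empty : Good ∅ := by
  refine ⟨linearIndepOn_empty ℚ _, ?_⟩
  intro x hx
  rcases hx with hx | hx <;> exact absurd hx (Set.notMem_empty _)

lemma good_iUnion (ι : Type) (S : ι → Set V) (_hne : Nonempty ι) (hdir : Directed (· ⊆ ·) S)
    (hS : ∀ i, Good (S i)) : Good (⋃ i, S i) := by
  refine ⟨linearIndepOn_iUnion_of_directed hdir fun i => (hS i).indep, ?_⟩
  intro x hx y hy z hz hxy hyz hxz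
  have hmem : ∀ w, w ∈ sym (⋃ i, S i) → ∃ i, w ∈ sym (S i) := by
    rintro w (hw | hw)
    · obtain ⟨i, hi⟩ := Set.mem_iUnion.1 hw
      exact ⟨i, Or.inl hi⟩
    · obtain ⟨i, hi⟩ := Set.mem_iUnion.1 hw
      exact ⟨i, Or.inr hi⟩
  obtain ⟨i, hi⟩ := hmem x hx
  obtain ⟨j, hj⟩ := hmem y hy
  obtain ⟨k, hk⟩ := hmem z hz
  obtain ⟨l, hil, hjl⟩ := hdir i j
  obtain ⟨m, hlm, hkm⟩ := hdir l k
  exact (hS m).gen x (sym_mono (hil.trans hlm) hi) y (sym_mono (hjl.trans hlm) hj) z
    (sym_mono hkm hk) hxy hyz hxz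

/-- There is a Hamel basis of the plane whose symmetrization is a Mazurkiewicz set. -/
theorem exists_basis : ∃ H : Set V, Good H ∧ Submodule.span ℚ H = ⊤ ∧ IsMazurkiewicz (sym H) := by
  classical
  let T := (ℝ × ℝ × ℝ) ⊕ V
  have hT : #T ≤ 𝔠 := by
    simp only [T, V, Cardinal.mk_sum, Cardinal.mk_prod, Cardinal.lift_id, Cardinal.mk_real]
    simp
  let R : T → Set V → Prop := fun t S => match t with
    | Sum.inl (a, b, c) => (a ≠ 0 ∨ b ≠ 0) → ∃ x ∈ sym S, ∃ y ∈ sym S, x ≠ y ∧
        a * x.1 + b * x.2 = c ∧ a * y.1 + b * y.2 = c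
    | Sum.inr v => v ∈ Submodule.span ℚ S
  obtain ⟨H, hH, hR⟩ := Transfinite.exists_of_step (X := V) (T := T) 𝔠
    Cardinal.aleph0_lt_continuum hT Good R good_empty good_iUnion (by
      rintro (⟨a, b, c⟩ | v) S S' hR hSS' _
      · intro hab
        obtain ⟨x, hx, y, hy, hxy⟩ := hR hab
        exact ⟨x, sym_mono hSS' hx, y, sym_mono hSS' hy, hxy⟩
      · exact Submodule.span_mono hSS' hR) (by
      rintro S hS hcard (⟨a, b, c⟩ | v)
      · by_cases hab : a ≠ 0 ∨ b ≠ 0
        · by_cases h2 : ∃ x ∈ sym S, ∃ y ∈ sym S, x ≠ y ∧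
            a * x.1 + b * x.2 = c ∧ a * y.1 + b * y.2 = c
          · exact ⟨∅, Set.finite_empty, by rwa [Set.union_empty], fun _ => by
              rwa [Set.union_empty]⟩
          · have hl : ∀ x ∈ sym S, ∀ y ∈ sym S, a * x.1 + b * x.2 = c →
                a * y.1 + b * y.2 = c → x = y := by
              intro x hx y hy h3 h4
              by_contra hxy
              exact h2 ⟨x, hx, y, hy, hxy, h3, h4⟩
            obtain ⟨p, hp1, hp2, hp3⟩ := exists_on_line hS hcard a b c hab hl
            have hpsym : p ∈ sym (insert p S) := Or.inl (Set.mem_insert _ _)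
            by_cases h2' : ∃ x ∈ sym (insert p S), ∃ y ∈ sym (insert p S), x ≠ y ∧
              a * x.1 + b * x.2 = c ∧ a * y.1 + b * y.2 = c
            · refine ⟨{p}, Set.finite_singleton _, ?_, fun _ => ?_⟩
              · rw [Set.union_singleton]; exact hp3
              · rw [Set.union_singleton]; exact h2'
            · have hl' : ∀ x ∈ sym (insert p S), ∀ y ∈ sym (insert p S), a * x.1 + b * x.2 = c →
                  a * y.1 + b * y.2 = c → x = y := by
                intro x hx y hy h3 h4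
                by_contra hxy
                exact h2' ⟨x, hx, y, hy, hxy, h3, h4⟩
              obtain ⟨q, hq1, hq2, hq3⟩ := exists_on_line hp3 (mk_insert_lt hcard p) a b c hab hl'
              have heq : S ∪ {q, p} = insert q (insert p S) := by
                ext w
                simp only [Set.mem_union, Set.mem_insert_iff, Set.mem_singleton_iff]
                tauto
              refine ⟨{q, p}, by simp, ?_, fun _ => ?_⟩
              · rw [heq]; exact hq3
              · rw [heq]
                refine ⟨q, Or.inl (Set.mem_insert _ _), p, sym_mono (Set.subset_insert _ _) hpsym,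
                  ?_, hq1, hp1⟩
                rintro rfl
                exact hq2 hpsym
        · exact ⟨∅, Set.finite_empty, by rwa [Set.union_empty], fun h => absurd h hab⟩
      · by_cases hv : v ∈ Submodule.span ℚ S
        · exact ⟨∅, Set.finite_empty, by rwa [Set.union_empty], by
            change v ∈ Submodule.span ℚ (S ∪ ∅)
            rwa [Set.union_empty]⟩
        · obtain ⟨p, hp⟩ := exists_span hS hcard v hv
          have heq : S ∪ {v - p, p} = insert (v - p) (insert p S) := by
            ext w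
            simp only [Set.mem_union, Set.mem_insert_iff, Set.mem_singleton_iff]
            tauto
          refine ⟨{v - p, p}, by simp, ?_, ?_⟩
          · rw [heq]; exact hp
          · change v ∈ Submodule.span ℚ (S ∪ {v - p, p})
            rw [heq]
            have h1 : v = (v - p) + p := by abel
            rw [h1]
            refine Submodule.add_mem _ ?_ ?_
            · rw [← h1]
              exact Submodule.subset_span (Set.mem_insert _ _)
            · exact Submodule.subset_span (Set.mem_insert_of_mem _ (Set.mem_insert _ _)))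
  refine ⟨H, hH, ?_, ?_⟩
  · rw [eq_top_iff]
    intro v _
    exact hR (Sum.inr v)
  · rintro l ⟨a, b, c, hab, rfl⟩
    obtain ⟨x, hx, y, hy, hxy, hx1, hy1⟩ := hR (Sum.inl (a, b, c)) hab
    have heq : sym H ∩ {p : V | a * p.1 + b * p.2 = c} = {x, y} := by
      apply Set.Subset.antisymm
      · rintro z ⟨hz, hz1⟩
        have hz1' : a * z.1 + b * z.2 = c := hz1
        by_contra hcon
        simp only [Set.mem_insert_iff, Set.mem_singleton_iff, not_or] at hcon
        refine hH.gen x hx y hy z hz hxy (Ne.symm hcon.2) (Ne.symm hcon.1) ?_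
        rw [D_def]
        rcases hab with h1 | h1
        · apply mul_left_cancel₀ h1
          linear_combination (z.2 - x.2) * (hy1 - hx1) - (y.2 - x.2) * (hz1' - hx1)
        · apply mul_left_cancel₀ h1
          linear_combination (y.1 - x.1) * (hz1' - hx1) - (z.1 - x.1) * (hy1 - hx1)
      · rintro z (rfl | rfl)
        · exact ⟨hx, hx1⟩
        · exact ⟨hy, hy1⟩
    rw [heq]
    exact Set.encard_pair hxy

end Pool.Agent.R981.Mazur
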