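import Mathlib
import Pool.Agent.R981.MazurBuild

open Set

set_option autoImplicit false

namespace Pool.Agent.R981.Mazur

/-- Two fixed-point-free involutions have a common proper two-colouring. -/
theorem exists_coloring {X : Type*} (a b : X → X) (ha : ∀ x, a (a x) = x) (hb : ∀ x, b (b x) = x)
    (ha' : ∀ x, a x ≠ x) (hb' : ∀ x, b x ≠ x) :
    ∃ χ : X → Prop, (∀ x, χ (a x) ↔ ¬ χ x) ∧ (∀ x, χ (b x) ↔ ¬ χ x) := by
  classical
  let A : Equiv.Perm X := ⟨a, a, ha, ha⟩
  let B : Equiv.Perm X := ⟨b, b, hb, hb⟩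
  let σ : Equiv.Perm X := B * A
  have hA : ∀ x, A x = a x := fun _ => rfl
  have hB : ∀ x, B x = b x := fun _ => rfl
  have hAi : A⁻¹ = A := rfl
  have hBi : B⁻¹ = B := rfl
  have hAA : A * A = 1 := by ext x; exact ha x
  have hBB : B * B = 1 := by ext x; exact hb x
  have hσi : σ⁻¹ = A * B := by
    simp only [σ, mul_inv_rev, hAi, hBi]
  have hconj : ∀ i : ℤ, A * σ ^ i = σ ^ (-i) * A := by
    intro i
    have h1 : A * σ * A⁻¹ = σ⁻¹ := by
      rw [hσi, hAi]
      simp only [σ, mul_assoc, hAA, mul_one]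
    have h2 : (A * σ * A⁻¹) ^ i = A * σ ^ i * A⁻¹ := conj_zpow
    rw [h1, inv_zpow, ← zpow_neg] at h2
    rw [h2, mul_assoc, hAi, mul_assoc, hAA, mul_one]
  -- the key fact
  have hkey : ∀ (x : X) (i : ℤ), (σ ^ i) x ≠ a x := by
    intro x i hi
    rcases Int.even_or_odd' i with ⟨j, hj | hj⟩
    · -- even case
      have h1 : (σ ^ j) x = A ((σ ^ j) x) := by
        have h2 : A ((σ ^ j) x) = (σ ^ (-j)) (A x) := by
          have := congrArg (fun f : Equiv.Perm X => f x) (hconj j)
          simpa [Equiv.Perm.mul_apply] using this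
        rw [h2, hA, ← hi]
        have h3 : (σ ^ (-j)) ((σ ^ i) x) = (σ ^ (-j + i)) x := by
          rw [zpow_add, Equiv.Perm.mul_apply]
        rw [h3]
        congr 2
        omega
      exact ha' _ h1.symm
    · have h2 : A ((σ ^ j) x) = (σ ^ (-j)) (A x) := by
        have := congrArg (fun f : Equiv.Perm X => f x) (hconj j)
        simpa [Equiv.Perm.mul_apply] using this
      have h5 : (σ ^ (-j)) ((σ ^ i) x) = (σ ^ (-j + i)) x := by
        rw [zpow_add, Equiv.Perm.mul_apply]
      rw [hA x, ← hi, h5] at h2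
      have h3 : -j + i = 1 + j := by omega
      rw [h3, zpow_add, zpow_one, Equiv.Perm.mul_apply] at h2
      have h4 : σ ((σ ^ j) x) = B (A ((σ ^ j) x)) := rfl
      rw [h4] at h2
      exact hb' _ h2.symm
  let s : Setoid X := Equiv.Perm.SameCycle.setoid σ
  let cl : X → Quotient s := Quotient.mk s
  have hcl : ∀ x y, cl x = cl y ↔ σ.SameCycle x y := fun x y => Quotient.eq
  have hne : ∀ x, cl x ≠ cl (a x) := by
    intro x h
    obtain ⟨i, hi⟩ := (hcl _ _).1 h
    exact hkey x i hi
  have hb1 : ∀ x, cl (b x) = cl (a x) := by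
    intro x
    rw [eq_comm, hcl]
    refine ⟨1, ?_⟩
    rw [zpow_one]
    change b (a (a x)) = b x
    rw [ha]
  have hb2 : ∀ x, cl (a (b x)) = cl x := by
    intro x
    rw [eq_comm, hcl]
    refine ⟨-1, ?_⟩
    rw [zpow_neg, zpow_one, hσi]
    rfl
  have htri : ∀ u v : Quotient s, u ≠ v → (WellOrderingRel v u ↔ ¬ WellOrderingRel u v) := by
    intro u v huv
    constructor
    · intro h1 h2
      exact asymm h1 h2
    · intro h1
      rcases trichotomous_of WellOrderingRel u v with h | h | h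
      · exact absurd h h1
      · exact absurd h huv
      · exact h
  refine ⟨fun x => WellOrderingRel (cl x) (cl (a x)), fun x => ?_, fun x => ?_⟩
  · change WellOrderingRel (cl (a x)) (cl (a (a x))) ↔ _
    rw [ha]
    exact htri _ _ (hne x)
  · change WellOrderingRel (cl (b x)) (cl (a (b x))) ↔ _
    rw [hb1, hb2]
    exact htri _ _ (hne x)

/-- Choosing one point from each antipodal pair of a symmetrized Hamel basis gives a Hamel
basis. -/
lemma isHamelBasis_of_choice {H A : Set V} (hH : Good H) (hspan : Submodule.span ℚ H = ⊤)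
    (hA : A ⊆ sym H) (hAn : ∀ p ∈ sym H, (-p ∈ A ↔ p ∉ A)) : IsHamelBasis A := by
  classical
  let ε : H → ℚˣ := fun h => if (h : V) ∈ A then 1 else -1
  let g : H → V := fun h => ε h • (h : V)
  have hg1 : ∀ h : H, (h : V) ∈ A → g h = h := by
    intro h hh
    simp [g, ε, hh]
  have hg2 : ∀ h : H, (h : V) ∉ A → g h = -h := by
    intro h hh
    simp [g, ε, hh]
  have hgA : ∀ h : H, g h ∈ A := by
    intro h
    by_cases hh : (h : V) ∈ A
    · rw [hg1 h hh]; exact hh
    · rw [hg2 h hh]
      exact (hAn h (Or.inl h.2)).2 hh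
  have hrange : Set.range g = A := by
    apply Set.Subset.antisymm
    · rintro _ ⟨h, rfl⟩
      exact hgA h
    · intro p hp
      rcases hA hp with h1 | h1
      · exact ⟨⟨p, h1⟩, hg1 ⟨p, h1⟩ hp⟩
      · refine ⟨⟨-p, h1⟩, ?_⟩
        have h2 : -p ∉ A := by
          rw [hAn p (hA hp)]
          exact not_not.2 hp
        rw [hg2 ⟨-p, h1⟩ h2]
        simp
  constructor
  · have h1 : LinearIndependent ℚ (fun h : H => (h : V)) := hH.indep
    have h2 : LinearIndependent ℚ g := h1.units_smul ε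
    exact h2.linearIndepOn_id' hrange
  · rw [eq_top_iff, ← hspan, Submodule.span_le]
    intro h hh
    by_cases hhA : h ∈ A
    · exact Submodule.subset_span hhA
    · have h1 : -h ∈ A := (hAn h (Or.inl hh)).2 hhA
      have h2 := (Submodule.span ℚ A).neg_mem (Submodule.subset_span h1)
      rwa [neg_neg] at h2

/-- The rotation as a linear equivalence over the rationals. -/
noncomputable def rotE (θ : ℝ) : V ≃ₗ[ℚ] V where
  toFun := rot θ
  invFun := rot (-θ)
  map_add' := fun p q => by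
    ext <;> simp only [rot, Prod.fst_add, Prod.snd_add] <;> ring
  map_smul' := fun c p => by
    ext <;> simp only [rot, Prod.smul_fst, Prod.smul_snd, RingHom.id_apply, Rat.smul_def] <;> ring
  left_inv := fun p => by
    have h := Real.cos_sq_add_sin_sq θ
    ext
    · simp only [rot, Real.cos_neg, Real.sin_neg]
      linear_combination p.1 * h
    · simp only [rot, Real.cos_neg, Real.sin_neg]
      linear_combination p.2 * h
  right_inv := fun p => by
    have h := Real.cos_sq_add_sin_sq θ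
    ext
    · simp only [rot, Real.cos_neg, Real.sin_neg]
      linear_combination p.1 * h
    · simp only [rot, Real.cos_neg, Real.sin_neg]
      linear_combination p.2 * h

lemma rotE_apply (θ : ℝ) (p : V) : rotE θ p = rot θ p := rfl

lemma isHamelBasis_rot {S : Set V} (hS : IsHamelBasis S) (θ : ℝ) : IsHamelBasis (rot θ '' S) := by
  constructor
  · have h1 : LinearIndependent ℚ (fun p : S => rotE θ (p : V)) :=
      hS.1.map' (rotE θ).toLinearMap (rotE θ).ker
    have h3 : Set.range (fun p : S => rotE θ (p : V)) = rot θ '' S := by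
      ext p
      simp [rotE_apply]
    exact h1.linearIndepOn_id' h3
  · have h1 : rot θ '' S = (rotE θ).toLinearMap '' S := rfl
    rw [h1, Submodule.span_image, hS.2, Submodule.map_top]
    exact LinearMap.range_eq_top.2 (rotE θ).surjective

/-- The points of a given colour of a two-coloured symmetric Mazurkiewicz set form, after
rotation, the graph of a Hamel function. -/
lemma exists_hamelFunction {H : Set V} (hH : Good H) (hspan : Submodule.span ℚ H = ⊤)
    (hM : IsMazurkiewicz (sym H)) (θ : ℝ) (χ : V → Prop)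
    (h1 : ∀ p ∈ sym H, (χ (-p) ↔ ¬ χ p))
    (h2 : ∀ p ∈ sym H, ∀ q ∈ sym H, p ≠ q → (rot θ p).1 = (rot θ q).1 → (χ q ↔ ¬ χ p)) :
    ∃ f : ℝ → ℝ, IsHamelFunction f ∧ graph f = rot θ '' {p | p ∈ sym H ∧ χ p} := by
  classical
  set A : Set V := {p | p ∈ sym H ∧ χ p} with hA
  have hbasis : IsHamelBasis A := by
    refine isHamelBasis_of_choice hH hspan (fun p hp => hp.1) fun p hp => ?_
    simp only [hA, Set.mem_ofPred_eq, not_and]
    constructor
    · rintro ⟨_, h3⟩ _
      exact (h1 p hp).1 h3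
    · intro h3
      exact ⟨neg_mem_sym hp, (h1 p hp).2 (h3 hp)⟩
  have hex : ∀ x : ℝ, ∃ p ∈ A, (rot θ p).1 = x := by
    intro x
    have hline : IsLine {p : V | Real.cos θ * p.1 + (-Real.sin θ) * p.2 = x} := by
      refine ⟨Real.cos θ, -Real.sin θ, x, ?_, rfl⟩
      by_contra hcon
      push Not at hcon
      have h := Real.cos_sq_add_sin_sq θ
      rw [hcon.1, neg_eq_zero.1 hcon.2] at h
      norm_num at h
    obtain ⟨p, q, hpq, hset⟩ := Set.encard_eq_two.1 (hM _ hline)
    have hp : p ∈ sym H ∩ {p : V | Real.cos θ * p.1 + (-Real.sin θ) * p.2 = x} := by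
      rw [hset]; exact Set.mem_insert _ _
    have hq : q ∈ sym H ∩ {p : V | Real.cos θ * p.1 + (-Real.sin θ) * p.2 = x} := by
      rw [hset]; exact Set.mem_insert_of_mem _ rfl
    have hp2 : (rot θ p).1 = x := by
      have := hp.2
      simp only [Set.mem_ofPred_eq] at this
      simp only [rot]
      linarith
    have hq2 : (rot θ q).1 = x := by
      have := hq.2
      simp only [Set.mem_ofPred_eq] at this
      simp only [rot]
      linarith
    by_cases hχ : χ p
    · exact ⟨p, ⟨hp.1, hχ⟩, hp2⟩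
    · refine ⟨q, ⟨hq.1, ?_⟩, hq2⟩
      exact (h2 p hp.1 q hq.1 hpq (hp2.trans hq2.symm)).2 hχ
  choose g hg1 hg2 using hex
  refine ⟨fun x => (rot θ (g x)).2, ?_, ?_⟩
  all_goals
    have hgraph : graph (fun x => (rot θ (g x)).2) = rot θ '' A := by
      ext p
      constructor
      · intro hp
        have hp' : p.2 = (rot θ (g p.1)).2 := hp
        exact ⟨g p.1, hg1 _, Prod.ext (hg2 _) hp'.symm⟩
      · rintro ⟨q, hq, rfl⟩
        change (rot θ q).2 = (rot θ (g (rot θ q).1)).2
        have h3 : g (rot θ q).1 = q := by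
          by_contra hne
          have h4 := h2 _ (hg1 (rot θ q).1).1 q hq.1 hne (hg2 _)
          exact h4.1 hq.2 (hg1 _).2
        rw [h3]
  · unfold IsHamelFunction
    rw [hgraph]
    exact isHamelBasis_rot hbasis θ
  · exact hgraph

/-- There is a Mazurkiewicz set every rotation of which is a union of two Hamel functions. -/
theorem exists_mazurkiewicz : ∃ M : Set (ℝ × ℝ), IsMazurkiewicz M ∧ ∀ θ : ℝ,
    ∃ f g : ℝ → ℝ, IsHamelFunction f ∧ IsHamelFunction g ∧
      rot θ '' M = graph f ∪ graph g := by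
  classical
  obtain ⟨H, hH, hspan, hM⟩ := exists_basis
  refine ⟨sym H, hM, fun θ => ?_⟩
  have h0 := hH.zero_notMem
  -- the partner on the line
  have hpart : ∀ p : sym H, ∃ q : sym H, (q : V) ≠ p ∧ (rot θ q).1 = (rot θ p).1 ∧
      ∀ r : sym H, (r : V) ≠ p → (rot θ r).1 = (rot θ p).1 → r = q := by
    intro p
    have hline : IsLine {r : V | Real.cos θ * r.1 + (-Real.sin θ) * r.2 = (rot θ p).1} := by
      refine ⟨Real.cos θ, -Real.sin θ, _, ?_, rfl⟩
      by_contra hcon
      push Not at hcon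
      have h := Real.cos_sq_add_sin_sq θ
      rw [hcon.1, neg_eq_zero.1 hcon.2] at h
      norm_num at h
    have hiff : ∀ r : V, r ∈ {r : V | Real.cos θ * r.1 + (-Real.sin θ) * r.2 = (rot θ p).1} ↔
        (rot θ r).1 = (rot θ p).1 := by
      intro r
      simp only [Set.mem_ofPred_eq, rot]
      constructor <;> intro h <;> linarith
    obtain ⟨x, y, hxy, hset⟩ := Set.encard_eq_two.1 (hM _ hline)
    have hx : x ∈ sym H ∩ {r : V | Real.cos θ * r.1 + (-Real.sin θ) * r.2 = (rot θ p).1} := by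
      rw [hset]; exact Set.mem_insert _ _
    have hy : y ∈ sym H ∩ {r : V | Real.cos θ * r.1 + (-Real.sin θ) * r.2 = (rot θ p).1} := by
      rw [hset]; exact Set.mem_insert_of_mem _ rfl
    have hp : (p : V) ∈ ({x, y} : Set V) := by
      rw [← hset]
      exact ⟨p.2, (hiff _).2 rfl⟩
    rcases hp with hp | hp
    · refine ⟨⟨y, hy.1⟩, ?_, (hiff y).1 hy.2, ?_⟩
      · intro hyp
        exact hxy.symm (Eq.trans (show y = (p : V) from hyp) hp)
      · intro r hr1 hr2
        have hr : (r : V) ∈ ({x, y} : Set V) := by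
          rw [← hset]
          exact ⟨r.2, (hiff _).2 hr2⟩
        rcases hr with hr | hr
        · exact absurd (hr.trans hp.symm) hr1
        · exact Subtype.ext hr
    · have hp' : (p : V) = y := hp
      refine ⟨⟨x, hx.1⟩, ?_, (hiff x).1 hx.2, ?_⟩
      · intro hxp
        exact hxy (Eq.trans (show x = (p : V) from hxp) hp')
      · intro r hr1 hr2
        have hr : (r : V) ∈ ({x, y} : Set V) := by
          rw [← hset]
          exact ⟨r.2, (hiff _).2 hr2⟩
        rcases hr with hr | hr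
        · exact Subtype.ext hr
        · have hr' : (r : V) = y := hr
          exact absurd (hr'.trans hp'.symm) hr1
  choose b hb1 hb2 hb3 using hpart
  let a : sym H → sym H := fun p => ⟨-p, neg_mem_sym p.2⟩
  obtain ⟨χ, hχ1, hχ2⟩ := exists_coloring a b (fun p => Subtype.ext (neg_neg _))
    (fun p => (hb3 (b p) p (hb1 p).symm (hb2 p).symm).symm)
    (fun p hp => by
      have h1 : -(p : V) = p := congrArg Subtype.val hp
      have h2 : (p : V) = 0 := neg_eq_self.1 h1
      exact h0 (h2 ▸ p.2))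
    (fun p hp => hb1 p (congrArg Subtype.val hp))
  let χ' : V → Prop := fun p => ∃ h : p ∈ sym H, χ ⟨p, h⟩
  have hχ' : ∀ p (h : p ∈ sym H), χ' p ↔ χ ⟨p, h⟩ := fun p h =>
    ⟨fun ⟨_, h'⟩ => h', fun h' => ⟨h, h'⟩⟩
  have e1 : ∀ p ∈ sym H, (χ' (-p) ↔ ¬ χ' p) := by
    intro p hp
    rw [hχ' p hp, hχ' (-p) (neg_mem_sym hp)]
    exact hχ1 ⟨p, hp⟩
  have e2 : ∀ p ∈ sym H, ∀ q ∈ sym H, p ≠ q → (rot θ p).1 = (rot θ q).1 →
      (χ' q ↔ ¬ χ' p) := by
    intro p hp q hq hpq he
    rw [hχ' p hp, hχ' q hq]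
    have h3 : (⟨q, hq⟩ : sym H) = b ⟨p, hp⟩ := hb3 ⟨p, hp⟩ ⟨q, hq⟩ hpq.symm he.symm
    rw [h3]
    exact hχ2 ⟨p, hp⟩
  obtain ⟨f, hf1, hf2⟩ := exists_hamelFunction hH hspan hM θ χ' e1 e2
  obtain ⟨g, hg1, hg2⟩ := exists_hamelFunction hH hspan hM θ (fun p => ¬ χ' p)
    (fun p hp => not_congr (e1 p hp)) (fun p hp q hq hpq he => not_congr (e2 p hp q hq hpq he))
  refine ⟨f, g, hf1, hg1, ?_⟩
  rw [hf2, hg2, ← Set.image_union]
  congr 1
  ext p
  simp only [Set.mem_union, Set.mem_ofPred_eq]
  by_cases h : χ' p <;> simp [h]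

end Pool.Agent.R981.Mazur
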